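import Mathlib
import Pool.Agent.R650.Rest

/-!
# MP_af3a77: restriction monoids that are not finitely generated (both settings)
-/

set_option autoImplicit false

namespace Pool.Agent.Results.MP_af3a77_al.RestrictionMonoids

open Pool.Agent.R650.Rest

/-- There are a finitely generated group `G` and a finite subgroup `H` of `G` such that the monoid
of classes of restrictions to `H` is not finitely generated, neither for finite-dimensional unitary
representations (setting (R)) nor for finite actions (setting (A)). -/
theorem result : ∃ (G : Type) (_ : Group G) (H : Subgroup G), Group.FG G ∧ Finite H ∧
    ¬ RepMonoidFG H ∧ ¬ ActMonoidFG H :=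
  ⟨G, inferInstance, H, fg, finite_H, not_repMonoidFG, not_actMonoidFG⟩

end Pool.Agent.Results.MP_af3a77_al.RestrictionMonoids
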